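import Pool.Agent.N561.EK.StmX
import Pool.Agent.N499.AX.OutX

/-!
# Explicit constants, expansions: products and a child without circle (EKX/2, EKX/3; helper499)
-/

set_option autoImplicit false
set_option maxHeartbeats 1000000

namespace Pool.Agent.N499.EK

open Finset Filter Topology Metric
open Pool.Agent.N561
open Pool.Agent.N561.EK
open Pool.Agent.W711.HT hiding XX
open Pool.Agent.TH563.UV
open Pool.Agent.W719.AX (UX GX cv)
open Pool.Agent.W85.HT (ker_diff ker_symm stp_eq)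
open Pool.Agent.W21.AX (ux_comp ux_cst exp_small)
open scoped Real

/-! ### Expansions -/

lemma ux_eq {E : Type} {Y Y' A : ℕ → E → ℂ} {S : Set E} (h : UX Y A S)
    (he : ∀ N : ℕ, ∀ p ∈ S, Y' N p = Y N p) : UX Y' A S := by
  intro K
  obtain ⟨C, hC⟩ := h K
  exact ⟨C, hC.mono fun N hN p hp => by rw [he N p hp]; exact hN p hp⟩

lemma ux_sub {E : Type} {Y A : ℕ → E → ℂ} {S T : Set E} (h : UX Y A S) (hT : T ⊆ S) :
    UX Y A T := by
  intro K
  obtain ⟨C, hC⟩ := h K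
  exact ⟨C, hC.mono fun N hN p hp => hN p (hT hp)⟩

lemma ux_coef {E : Type} {Y A B : ℕ → E → ℂ} {S : Set E} (h : UX Y A S)
    (he : ∀ k, ∀ p ∈ S, B k p = A k p) : UX Y B S := by
  intro K
  obtain ⟨C, hC⟩ := h K
  refine ⟨C, hC.mono fun N hN p hp => ?_⟩
  rw [Finset.sum_congr rfl fun k _ => by rw [he k p hp]]
  exact hN p hp

/-- the coefficients are unique -/
lemma ux_uniq {E : Type} {Y A B : ℕ → E → ℂ} {S T : Set E} (hA : UX Y A S) (hB : UX Y B T)
    (k : ℕ) : ∀ p ∈ S, p ∈ T → A k p = B k p := by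
  induction k using Nat.strong_induction_on with
  | _ k ih =>
    intro p hp hpT
    obtain ⟨C1, h1⟩ := hA (k + 1)
    obtain ⟨C2, h2⟩ := hB (k + 1)
    have h3 : ∀ᶠ N : ℕ in atTop, ‖A k p - B k p‖ ≤ (C1 + C2) / N := by
      filter_upwards [h1, h2, eventually_ge_atTop 1] with N g1 g2 hN
      have e1 := g1 p hp
      have e2 := g2 p hpT
      have hN0 : (0 : ℝ) < N := by exact_mod_cast hN
      have hNc : (N : ℂ) ≠ 0 := by exact_mod_cast hN0.ne'
      have e3 : ∑ j ∈ range k, A j p / (N : ℂ) ^ j = ∑ j ∈ range k, B j p / (N : ℂ) ^ j :=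
        Finset.sum_congr rfl fun j hj => by rw [ih j (Finset.mem_range.1 hj) p hp hpT]
      rw [Finset.sum_range_succ] at e1 e2
      rw [e3] at e1
      have e4 : ‖(A k p - B k p) / (N : ℂ) ^ k‖ ≤ (C1 + C2) / (N : ℝ) ^ (k + 1) := by
        have e5 : (A k p - B k p) / (N : ℂ) ^ k =
            (Y N p - (∑ j ∈ range k, B j p / (N : ℂ) ^ j + B k p / (N : ℂ) ^ k)) -
            (Y N p - (∑ j ∈ range k, B j p / (N : ℂ) ^ j + A k p / (N : ℂ) ^ k)) := by
          ring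
        rw [e5, add_div]
        refine (norm_sub_le _ _).trans ?_
        linarith
      rw [norm_div, norm_pow, Complex.norm_natCast, div_le_iff₀ (by positivity)] at e4
      refine e4.trans (le_of_eq ?_)
      rw [pow_succ]
      field_simp
    have h4 : Tendsto (fun N : ℕ => (C1 + C2) / (N : ℝ)) atTop (𝓝 0) :=
      tendsto_const_div_atTop_nhds_zero_nat _
    have h5 : ‖A k p - B k p‖ ≤ 0 := ge_of_tendsto h4 h3
    exact sub_eq_zero.1 (norm_le_zero_iff.1 h5)

/-- the normalising factor grows slower than any exponential -/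
lemma nn_ev (q e : ℕ) {ε : ℝ} (hε : 0 < ε) : ∀ᶠ N : ℕ in atTop,
    ‖(N : ℂ) ^ (2 * q) * (-1) ^ (N * q) * ((((Real.sqrt N) ^ e : ℝ)) : ℂ)‖ ≤
      Real.exp (ε * N) := by
  filter_upwards [exp_small ε hε (2 * q + e) 0, eventually_ge_atTop 1] with N h1 h2
  have hN1 : (1 : ℝ) ≤ N := by exact_mod_cast h2
  have hN0 : (0 : ℝ) ≤ N := by linarith
  rw [norm_mul, norm_mul, norm_pow, norm_pow, norm_neg, norm_one, one_pow, mul_one,
    Complex.norm_real, Real.norm_of_nonneg (pow_nonneg (Real.sqrt_nonneg _) _),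
    Complex.norm_natCast]
  have e8 : Real.sqrt N ≤ N := by
    rw [Real.sqrt_le_left (by positivity)]
    nlinarith
  have h3 : (Real.sqrt N) ^ e ≤ (N : ℝ) ^ e := pow_le_pow_left₀ (Real.sqrt_nonneg _) e8 e
  have h4 : (N : ℝ) ^ (2 * q) * (Real.sqrt N) ^ e ≤ (N : ℝ) ^ (2 * q + e) := by
    rw [pow_add]
    exact mul_le_mul_of_nonneg_left h3 (by positivity)
  refine h4.trans ?_
  rw [pow_zero, div_one, Real.exp_neg, ← div_eq_mul_inv, div_le_one (Real.exp_pos _)] at h1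
  exact h1

lemma sq4 (N : ℕ) : ((((Real.sqrt N) ^ 3 : ℝ)) : ℂ) * (Real.sqrt N : ℂ) = (N : ℂ) ^ 2 := by
  have h1 : (Real.sqrt N) ^ 3 * Real.sqrt N = (N : ℝ) ^ 2 := by
    have h2 := Real.sq_sqrt (Nat.cast_nonneg (α := ℝ) N)
    calc (Real.sqrt N) ^ 3 * Real.sqrt N = ((Real.sqrt N) ^ 2) ^ 2 := by ring
      _ = _ := by rw [h2]
  rw [← Complex.ofReal_mul, h1]
  push_cast
  ring

/-! ### Domains -/

lemma DD_open : IsOpen DD := by
  unfold DD
  apply IsOpen.inter
  · exact isOpen_lt (Complex.continuous_re.abs) continuous_const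
  · exact isOpen_lt (Complex.continuous_im.abs) continuous_const

lemma D0_sub : D0 ⊆ DD := by
  rintro w ⟨h1, h2, h3⟩
  have h4 := Complex.abs_re_le_norm w
  have h5 : 0 ≤ w.im := by
    rcases h3 with h | h
    · rw [h]; simp
    · exact h.le
  refine ⟨by linarith, ?_⟩
  rw [abs_of_nonneg h5]
  linarith

lemma PP_sub {z : ℂ} (hz : z ∈ D0) : PP z ⊆ DD := by
  obtain ⟨h1, h2, h3⟩ := hz
  have h5 : 0 ≤ z.im := by
    rcases h3 with h | h
    · rw [h]; simp
    · exact h.le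
  rintro w (⟨g1, g2⟩ | ⟨g1, g2, g3⟩)
  · refine ⟨by linarith, ?_⟩
    rw [g2, abs_of_nonneg h5]
    linarith
  · refine ⟨by linarith, ?_⟩
    rw [abs_of_nonneg g2]
    linarith

lemma Pth_sub {z : ℂ} {y τ : ℝ} (hτ : 0 < τ) (hτy : τ ≤ y) (hy : y ≤ z.im) :
    Pth 1 1 y z.im τ ⊆ PP z := by
  rintro w (⟨g1, g2, g3⟩ | ⟨g1, g2, g3⟩ | ⟨g1, g2, g3⟩ | ⟨g1, g2⟩)
  · exact Or.inr ⟨g1, by linarith, by linarith⟩
  · exact Or.inr ⟨le_antisymm g2 g1, by linarith, by linarith⟩
  · exact Or.inr ⟨g1, by linarith, g3⟩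
  · exact Or.inl ⟨g1, g2⟩

/-- a rectangle which contains the critical points -/
def V0 : Set ℂ := {w | |w.re| < 1 ∧ |w.im| < 6 / 25}

lemma V0_open : IsOpen V0 := by
  unfold V0
  apply IsOpen.inter
  · exact isOpen_lt (Complex.continuous_re.abs) continuous_const
  · exact isOpen_lt (Complex.continuous_im.abs) continuous_const

/-- a compact rectangle -/
def V1 : Set ℂ := {w | |w.re| ≤ 1 ∧ |w.im| ≤ 6 / 25}

lemma V0_sub : V0 ⊆ V1 := fun w hw => ⟨hw.1.le, hw.2.le⟩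

lemma V1_sub : V1 ⊆ DD := fun w hw => ⟨by linarith [hw.1], by linarith [hw.2]⟩

lemma V1_compact : IsCompact V1 := by
  refine Metric.isCompact_of_isClosed_isBounded ?_ ?_
  · unfold V1
    apply IsClosed.inter
    · exact isClosed_le (Complex.continuous_re.abs) continuous_const
    · exact isClosed_le (Complex.continuous_im.abs) continuous_const
  · refine (Metric.isBounded_iff_subset_closedBall 0).2 ⟨2, fun w hw => ?_⟩
    rw [mem_closedBall, dist_zero_right]
    have h1 := Complex.norm_le_abs_re_add_abs_im w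
    linarith [hw.1, hw.2]

lemma D0_V0 {z : ℂ} (hz : z ∈ D0) : z ∈ V0 := by
  obtain ⟨h1, h2, h3⟩ := hz
  have h4 := Complex.abs_re_le_norm z
  have h5 : 0 ≤ z.im := by
    rcases h3 with h | h
    · rw [h]; simp
    · exact h.le
  refine ⟨by linarith, ?_⟩
  rw [abs_of_nonneg h5]
  linarith

/-! ### Products -/

/-- **EKX/2** -/
theorem prx : S_PRX := by
  constructor
  · refine ⟨fun k _ => if k = 0 then 1 else 0, ?_, fun k => differentiableOn_const _,
      fun z _ => by simp⟩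
    intro V _ _
    refine ux_eq (ux_cst (fun _ : ℂ => (1 : ℂ)) V 1 (fun _ _ => by simp)) ?_
    intro N p _
    simp
  · intro m m' X Y F G A B hA hB
    refine ⟨cv A B, ?_, ?_, ?_⟩
    · intro V hV hVc
      refine ux_eq (Pool.Agent.W303.AX.uxmul _ _ _ _ _ _ (hA.ux V hV hVc) (hB.ux V hV hVc)) ?_
      intro N z _
      have e1 : Complex.exp (-(N * (F z + G z))) =
          Complex.exp (-(N * F z)) * Complex.exp (-(N * G z)) := by
        rw [← Complex.exp_add]
        congr 1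
        ring
      rw [e1, Nat.mul_add, Nat.mul_add, pow_add, pow_add]
      ring
    · intro k
      have h3 : cv A B k = fun p => ∑ i ∈ range (k + 1), A i p * B (k - i) p := rfl
      rw [h3]
      exact DifferentiableOn.fun_sum fun i _ => (hA.an i).mul (hB.an (k - i))
    · intro z hz
      have e1 : cv A B 0 z = A 0 z * B 0 z := by simp [cv]
      rw [e1]
      exact mul_ne_zero (hA.nz z hz) (hB.nz z hz)

/-! ### The path -/

lemma tg_add (z G G' w : ℂ) : tg z (G + G') w = tg z G w + tg z G' w := by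
  unfold tg
  rw [Complex.add_im, Complex.add_re]
  ring

lemma tg_zero (z w : ℂ) : tg z 0 w = 0 := by
  unfold tg
  simp

/-- the vertex term is affine on the path -/
lemma vertex (a : ℤ) {z : ℂ} (hz : 0 < z.im) (w : ℂ) :
    (Complex.I * a * w ^ 2 / (4 * π) + Complex.I * w).re =
      (Complex.I * a * z ^ 2 / (4 * π) + Complex.I * z).re +
        tg z (Complex.I * a * z / (2 * π) + Complex.I) w := by
  have hπ := Real.pi_pos
  have e1 : ∀ v : ℂ, (Complex.I * a * v ^ 2 / (4 * π) + Complex.I * v).re =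
      -((a : ℝ) * v.re * v.im / (2 * π)) - v.im := by
    intro v
    have e2 : Complex.I * a * v ^ 2 / (4 * π) + Complex.I * v =
        ((-((a : ℝ) * v.re * v.im / (2 * π)) - v.im : ℝ) : ℂ) +
          (((a : ℝ) * (v.re ^ 2 - v.im ^ 2) / (4 * π) + v.re : ℝ) : ℂ) * Complex.I := by
      apply Complex.ext
      · have e3 : Complex.I * a * v ^ 2 / (4 * π) = (Complex.I * v ^ 2) * (((a : ℝ) / (4 * π) : ℝ) : ℂ) := by
          push_cast; ring
        rw [e3]
        simp only [Complex.add_re, Complex.mul_re, Complex.I_re, Complex.I_im, Complex.ofReal_re,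
          Complex.ofReal_im, pow_two, Complex.mul_im]
        field_simp
        ring
      · have e3 : Complex.I * a * v ^ 2 / (4 * π) = (Complex.I * v ^ 2) * (((a : ℝ) / (4 * π) : ℝ) : ℂ) := by
          push_cast; ring
        rw [e3]
        simp only [Complex.add_im, Complex.mul_im, Complex.mul_re, Complex.I_re, Complex.I_im,
          Complex.ofReal_re, Complex.ofReal_im, pow_two]
        field_simp
        ring
    rw [e2]
    simp only [Complex.add_re, Complex.mul_re, Complex.ofReal_re, Complex.ofReal_im, Complex.I_re,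
      Complex.I_im]
    ring
  have e4 : (Complex.I * a * z / (2 * π) + Complex.I).re = -((a : ℝ) * z.im / (2 * π)) := by
    have e3 : Complex.I * a * z / (2 * π) = (Complex.I * z) * (((a : ℝ) / (2 * π) : ℝ) : ℂ) := by
      push_cast; ring
    rw [e3]
    simp only [Complex.add_re, Complex.mul_re, Complex.I_re, Complex.I_im, Complex.ofReal_re,
      Complex.ofReal_im, Complex.mul_im]
    ring
  have e5 : (Complex.I * a * z / (2 * π) + Complex.I).im = (a : ℝ) * z.re / (2 * π) + 1 := by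
    have e3 : Complex.I * a * z / (2 * π) = (Complex.I * z) * (((a : ℝ) / (2 * π) : ℝ) : ℂ) := by
      push_cast; ring
    rw [e3]
    simp only [Complex.add_im, Complex.mul_re, Complex.I_re, Complex.I_im, Complex.ofReal_re,
      Complex.ofReal_im, Complex.mul_im]
    ring
  rw [e1, e1]
  unfold tg
  rw [e4, e5]
  field_simp
  ring

lemma vt_der (a : ℤ) (w : ℂ) :
    HasDerivAt (fun w : ℂ => Complex.I * a * w ^ 2 / (4 * π) + Complex.I * w)
      (Complex.I * a * w / (2 * π) + Complex.I) w := by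
  have h1 : HasDerivAt (fun w : ℂ => w ^ 2) (2 * w) w := by simpa using hasDerivAt_pow 2 w
  have h2 := ((h1.const_mul (Complex.I * a)).div_const (4 * π)).add
    ((hasDerivAt_id w).const_mul Complex.I)
  refine h2.congr_deriv ?_
  have : (π : ℂ) ≠ 0 := by exact_mod_cast Real.pi_ne_zero
  field_simp
  ring

lemma stpb_eq (a : ℤ) (X : ℕ → ℂ → ℂ) (N : ℕ) (p : ℂ) : stpb false a X N p =
    upp (1 / N) fun φ => Ea a N φ * (X N φ * ker N φ p) * kr N φ := by
  unfold stpb Eb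
  congr 1
  funext ψ
  rw [if_neg (by simp), mul_one]
  ring

lemma stpb_stp (a : ℤ) (X : ℕ → ℂ → ℂ) : stpb false a X = stp a X := by
  funext N p
  rw [stpb_eq, stp_eq]

section

variable {t m : ℕ} {a : ℤ} {X : ℕ → ℂ → ℂ} {F F' zs : ℂ → ℂ}

/-- the first derivative of the exponent -/
lemma qq_der (hP : POT) (hF : DifferentiableOn ℂ F DD) (a : ℤ) {p w : ℂ} (hp : p ∈ DD)
    (hw : w ∈ DD) : HasDerivAt (qq a fun w => F w + sg w p)
      (Complex.I * a * w / (2 * π) + Complex.I + (deriv F w + s1 w p)) w := by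
  have h1 : HasDerivAt (fun w => sg w p) (s1 w p) w :=
    (hP.d1 w hw p hp).differentiableAt.hasDerivAt
  have h2 : HasDerivAt F (deriv F w) w :=
    (hF.differentiableAt (DD_open.mem_nhds hw)).hasDerivAt
  exact (vt_der a w).add (h2.add h1)

/-- the second derivative of the exponent -/
lemma qq_neg (hP : POT) (hH : HES) (hF : AN t F) (a : ℤ) {p w : ℂ} (hp : p ∈ DD)
    (hw : w ∈ DD) : (deriv (deriv (qq a fun w => F w + sg w p)) w).re < 0 := by
  have hπ := Real.pi_pos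
  have h1 : deriv (qq a fun w => F w + sg w p) =ᶠ[𝓝 w]
      fun w => Complex.I * a * w / (2 * π) + Complex.I + (deriv F w + s1 w p) := by
    filter_upwards [DD_open.mem_nhds hw] with v hv
    exact (qq_der hP hF.Fan a hp hv).deriv
  have h2 : HasDerivAt (deriv F) (deriv (deriv F) w) w :=
    ((hF.Fan.deriv DD_open).differentiableAt (DD_open.mem_nhds hw)).hasDerivAt
  have h3 : HasDerivAt (fun v : ℂ => Complex.I * a * v / (2 * π) + Complex.I)
      (Complex.I * a / (2 * π)) w := by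
    have h4 := (((hasDerivAt_id w).const_mul (Complex.I * a)).div_const (2 * π)).add_const
      Complex.I
    refine h4.congr_deriv ?_
    rw [mul_one]
  have h5 := h3.add (h2.add (hP.d11 w hw p hp))
  have h6 : deriv (fun v : ℂ => Complex.I * a * v / (2 * π) + Complex.I + (deriv F v + s1 v p)) w
      = Complex.I * a / (2 * π) + (deriv (deriv F) w + -(1 / (2 * π)) *
        (Complex.cos (p / 2) / (Complex.cos (w / 2) * rr w p))) := h5.deriv
  rw [h1.deriv_eq, h6]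
  have h7 := hF.neg w hw
  have h8 := hH.hes w hw p hp 1 0
  have e1 : (Complex.I * a / (2 * π)).re = 0 := by
    have e2 : Complex.I * a / (2 * π) = Complex.I * (((a : ℝ) / (2 * π) : ℝ) : ℂ) := by
      push_cast; ring
    rw [e2, Complex.mul_re, Complex.I_re, Complex.I_im, Complex.ofReal_re, Complex.ofReal_im]
    ring
  have e3 : (-(1 / (2 * π)) * (Complex.cos (p / 2) / (Complex.cos (w / 2) * rr w p)) : ℂ) =
      ((-(1 / (2 * π)) : ℝ) : ℂ) * (Complex.cos (p / 2) / (Complex.cos (w / 2) * rr w p)) := by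
    push_cast; ring
  rw [Complex.add_re, Complex.add_re, e1, e3, Complex.re_ofReal_mul]
  have h9 : 3 / 5 ≤ (Complex.cos (p / 2) / (Complex.cos (w / 2) * rr w p)).re := by
    have : (3 / 5 : ℝ) * (1 ^ 2 + 0 ^ 2) = 3 / 5 := by norm_num
    rw [this] at h8
    refine h8.trans (le_of_eq ?_)
    ring
  have h10 : 0 < 1 / (2 * π) := by positivity
  nlinarith

/-- the inequality on the path -/
lemma path_lt (hE : EDG) (hX : TP t F) (hC : CRD t a F F' zs) {p : ℂ} (hp : p ∈ DD) {w : ℂ}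
    (hw : w ∈ PP (zs p)) (hne : w ≠ zs p) :
    (qq a (fun w => F w + sg w p) w).re < (qq a (fun w => F w + sg w p) (zs p)).re := by
  obtain ⟨hz, hz0⟩ := hC.mem p hp
  have h1 := vertex a hz0 w
  have h2 := hX.tp _ hz w hw
  have h3 := (hE.e1 _ hz p hp w hw).2.1 hne
  have h4 : tg (zs p) (Complex.I * a * zs p / (2 * π) + Complex.I) w + tg (zs p) (deriv F (zs p)) w +
      tg (zs p) (s1 (zs p) p) w = 0 := by
    rw [← tg_add, ← tg_add, hC.crit p hp, tg_zero]
  show (Complex.I * a * w ^ 2 / (4 * π) + Complex.I * w + (F w + sg w p)).re <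
    (Complex.I * a * (zs p) ^ 2 / (4 * π) + Complex.I * zs p + (F (zs p) + sg (zs p) p)).re
  rw [Complex.add_re _ (F w + sg w p), Complex.add_re _ (F (zs p) + sg (zs p) p),
    Complex.add_re (F w), Complex.add_re (F (zs p)), h1]
  linarith

/-- the value at the ends of the path -/
lemma end_le (hP : POT) (hE : EDG) (hX : TP t F) (hC : CRD t a F F' zs) {p : ℂ} (hp : p ∈ DD) :
    (F 1).re + (sg p 1).re + t / 50 + 1 / 50 ≤ (qq a (fun w => F w + sg w p) (zs p)).re := by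
  obtain ⟨hz, hz0⟩ := hC.mem p hp
  have hCO : CO 1 := ⟨by simp, by simp⟩
  have h1 := vertex a hz0 1
  have h2 := hX.tpc _ hz 1 hCO
  have hPP : (1 : ℂ) ∈ PP (zs p) := Or.inr ⟨by simp, by simp, by simpa using hz0.le⟩
  have h3 := (hE.e1 _ hz p hp 1 hPP).2.2 hCO
  have h4 : tg (zs p) (Complex.I * a * zs p / (2 * π) + Complex.I) 1 +
      tg (zs p) (deriv F (zs p)) 1 + tg (zs p) (s1 (zs p) p) 1 = 0 := by
    rw [← tg_add, ← tg_add, hC.crit p hp, tg_zero]
  have h5 : (Complex.I * a * (1 : ℂ) ^ 2 / (4 * π) + Complex.I * 1).re = 0 := by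
    have e2 : Complex.I * a * (1 : ℂ) ^ 2 / (4 * π) = Complex.I * (((a : ℝ) / (4 * π) : ℝ) : ℂ) := by
      push_cast; ring
    rw [e2, mul_one, Complex.add_re, Complex.mul_re, Complex.I_re, Complex.I_im,
      Complex.ofReal_re, Complex.ofReal_im]
    ring
  rw [h5] at h1
  rw [hP.sym 1 p] at h3
  show _ ≤ (Complex.I * a * (zs p) ^ 2 / (4 * π) + Complex.I * zs p + (F (zs p) + sg (zs p) p)).re
  rw [Complex.add_re _ (F (zs p) + sg (zs p) p), Complex.add_re (F (zs p))]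
  linarith

end

/-- the expansion on one compact set -/
lemma stx_one (hP : POT) (hH : HES) (hE : EDG) (hK : KMW) (hKF : KFR) {Ak : ℕ → ℂ × ℂ → ℂ}
    (hAk : KXF Ak) {t m : ℕ} {a : ℤ} {X : ℕ → ℂ → ℂ} {F F' zs : ℂ → ℂ} {A : ℕ → ℂ → ℂ}
    (hX : PE t X F) (hC : CRD t a F F' zs) (hA : GXD m X F A) {V : Set ℂ} (hV : V ⊆ DD)
    (hVc : IsCompact V) : ∃ B : ℕ → ℂ → ℂ, (∀ p ∈ V, B 0 p ≠ 0) ∧
      UX (fun N z => (N : ℂ) ^ (2 * (m + 1)) * (-1) ^ (N * (m + 1)) *
        Complex.exp (-(N * F' z)) * stpb false a X N z) B V := by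
  have hπ := Real.pi_gt_three
  have hFd : DifferentiableOn ℂ F DD := hX.ana.Fan
  have hsd : ∀ p ∈ DD, DifferentiableOn ℂ (fun w => sg w p) DD :=
    fun p hp w hw => (hP.d1 w hw p hp).differentiableAt.differentiableWithinAt
  have hzc : ContinuousOn zs V := hC.zan.continuousOn.mono hV
  obtain ⟨y₁, hy0, hy₁⟩ : ∃ y : ℝ, 0 < y ∧ ∀ p ∈ V, y ≤ (zs p).im :=
    hVc.exists_forall_le' (Complex.continuous_im.comp_continuousOn hzc)
      (fun p hp => (hC.mem p (hV hp)).2)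
  obtain ⟨τA, hτA, hfA⟩ := hX.far (1 / 1600) (by norm_num)
  obtain ⟨τB, hτB, hfB⟩ := hKF.f1 V hV hVc (1 / 1600) (by norm_num)
  have ha0 : 0 ≤ |(a : ℝ)| := abs_nonneg _
  obtain ⟨τ₁, hτ₁⟩ : ∃ τ₁ : ℝ, τ₁ = min (min τA τB) (min y₁ (1 / (400 * (|(a : ℝ)| + 1)))) :=
    ⟨_, rfl⟩
  have hτ0 : 0 < τ₁ := by
    rw [hτ₁]
    exact lt_min (lt_min hτA hτB) (lt_min hy0 (by positivity))
  have hτa : τ₁ ≤ τA := by rw [hτ₁]; exact (min_le_left _ _).trans (min_le_left _ _)
  have hτb : τ₁ ≤ τB := by rw [hτ₁]; exact (min_le_left _ _).trans (min_le_right _ _)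
  have hτy : τ₁ ≤ y₁ := by rw [hτ₁]; exact (min_le_right _ _).trans (min_le_left _ _)
  have hτd : |(a : ℝ)| * τ₁ / 2 ≤ 1 / 800 := by
    have h1 : τ₁ ≤ 1 / (400 * (|(a : ℝ)| + 1)) := by
      rw [hτ₁]; exact (min_le_right _ _).trans (min_le_right _ _)
    rw [le_div_iff₀ (by positivity)] at h1
    nlinarith
  have hcont : ContinuousOn (fun x : ℂ × ℂ => F x.2 + sg x.2 x.1) (V ×ˢ DD) := by
    apply ContinuousOn.add
    · exact ContinuousOn.comp (g := F) (f := fun x : ℂ × ℂ => x.2) hFd.continuousOn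
        continuousOn_snd (fun x hx => hx.2)
    · have h1 : ContinuousOn (fun x : ℂ × ℂ => (x.2, x.1)) (V ×ˢ DD) := by fun_prop
      exact ContinuousOn.comp (g := fun x : ℂ × ℂ => sg x.1 x.2)
        (f := fun x : ℂ × ℂ => (x.2, x.1)) hP.san.continuousOn h1
        (fun x hx => Set.mk_mem_prod hx.2 (hV hx.1))
  have hmw : ∀ ε : ℝ, 0 < ε → ∀ W ⊆ DD, IsCompact W → ∀ᶠ N : ℕ in atTop, ∀ p ∈ V, ∀ φ ∈ W,
      X N φ * ker N φ p ≠ 0 ∧
        |Real.log ‖X N φ * ker N φ p‖ - N * (F φ + sg φ p).re| ≤ ε * N := by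
    intro ε hε W hW hWc
    filter_upwards [hX.mw W hW hWc (ε / 2) (by positivity),
      hK (V ∪ W) (Set.union_subset hV hW) (hVc.union hWc) (ε / 2) (by positivity)] with
      N h1 h2 p hp φ hφ
    obtain ⟨k1, k2⟩ := h1 φ hφ
    obtain ⟨l1, l2⟩ := h2 φ (Or.inr hφ) p (Or.inl hp)
    refine ⟨mul_ne_zero k1 l1, ?_⟩
    rw [norm_mul, Real.log_mul (norm_ne_zero_iff.2 k1) (norm_ne_zero_iff.2 l1), Complex.add_re]
    rw [abs_le] at k2 l2 ⊢
    constructor
    · linarith [k2.1, l2.1]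
    · linarith [k2.2, l2.2]
  have hpt : ∀ p ∈ V, y₁ ≤ (zs p).im ∧ |(zs p).re| < 1 ∧ Pth 1 1 y₁ (zs p).im τ₁ ⊆ DD ∧
      deriv (qq a (fun w => F w + sg w p)) (zs p) = 0 ∧
      (deriv (deriv (qq a (fun w => F w + sg w p))) (zs p)).re < 0 ∧
      ∀ w ∈ Pth 1 1 y₁ (zs p).im τ₁, w ≠ zs p →
        (qq a (fun w => F w + sg w p) w).re < (qq a (fun w => F w + sg w p) (zs p)).re := by
    intro p hp
    obtain ⟨hz, hz0⟩ := hC.mem p (hV hp)
    have hsub := Pth_sub hτ0 hτy (hy₁ p hp)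
    refine ⟨hy₁ p hp, (D0_V0 hz).1, hsub.trans (PP_sub hz), ?_,
      qq_neg hP hH hX.ana a (hV hp) (D0_sub hz), fun w hw hne =>
        path_lt hE hX.tpl hC (hV hp) (hsub hw) hne⟩
    rw [(qq_der hP hFd a (hV hp) (D0_sub hz)).deriv, ← hC.crit p (hV hp)]
    ring
  have hbd : ∃ κ : ℝ, 0 < κ ∧
      (∀ᶠ N : ℕ in atTop, ∀ p ∈ V, ∀ x y : ℝ, 1 ≤ |x| → |x| ≤ π → |y| ≤ τ₁ →
        ‖X N (x + y * Complex.I) * ker N (x + y * Complex.I) p‖ ≤
          Real.exp (N * ((qq a (fun w => F w + sg w p) (zs p)).re - |(a : ℝ)| * τ₁ / 2 - κ))) ∧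
      ∀ᶠ N : ℕ in atTop, ∀ p ∈ V, ∀ x y : ℝ, |x| ≤ π → |y| ≤ 1 / N →
        ‖X N (x + y * Complex.I) * ker N (x + y * Complex.I) p -
          X N (x + y * Complex.I) * ker N (x + y * Complex.I) p‖ ≤
          Real.exp (N * ((qq a (fun w => F w + sg w p) (zs p)).re - κ)) := by
    refine ⟨1 / 200, by norm_num, ?_, ?_⟩
    · filter_upwards [hfA, hfB] with N h1 h2 p hp x y' hx hx' hy
      have h3 := h1 x y' hx hx' (hy.trans hτa)
      have h4 := h2 p hp x y' hx hx' (hy.trans hτb)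
      have h5 := end_le hP hE hX.tpl hC (hV hp)
      rw [norm_mul, ker_symm N (x + y' * Complex.I) p]
      refine (mul_le_mul h3 h4 (norm_nonneg _) (Real.exp_pos _).le).trans ?_
      rw [← Real.exp_add]
      apply Real.exp_le_exp.2
      rw [← mul_add]
      apply mul_le_mul_of_nonneg_left _ (Nat.cast_nonneg N)
      have h6 : (0 : ℝ) ≤ t := Nat.cast_nonneg t
      linarith
    · refine Eventually.of_forall fun N p _ x y' _ _ => ?_
      rw [sub_self, norm_zero]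
      exact (Real.exp_pos _).le
  -- the expansion of the integrand
  have hVW : V ∪ V1 ⊆ DD := Set.union_subset hV V1_sub
  have hVWc : IsCompact (V ∪ V1) := hVc.union V1_compact
  have hux : UX (fun (N : ℕ) (x : ℂ × ℂ) =>
      ((N : ℂ) ^ (2 * m) * (-1) ^ (N * m) * ((((Real.sqrt N) ^ 3 : ℝ)) : ℂ)) *
        Complex.exp (-(N * (F x.2 + sg x.2 x.1))) * (X N x.2 * ker N x.2 x.1))
      (cv (fun i (x : ℂ × ℂ) => A i x.2) (fun i x => Ak i (x.2, x.1))) (V ×ˢ V0) := by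
    have u1 := ux_comp (hA.ux _ hVW hVWc) (fun x : ℂ × ℂ => x.2) (V ×ˢ V0)
      (fun x hx => Or.inr (V0_sub hx.2))
    have u2 := ux_comp (hAk.ux _ hVW hVWc) (fun x : ℂ × ℂ => (x.2, x.1)) (V ×ˢ V0)
      (fun x hx => ⟨Or.inr (V0_sub hx.2), Or.inl hx.1⟩)
    have u3 := Pool.Agent.W303.AX.uxmul _ _ _ _ _ _ u1 u2
    refine ux_eq u3 ?_
    intro N x _
    have e1 : Complex.exp (-(N * (F x.2 + sg x.2 x.1))) =
        Complex.exp (-(N * F x.2)) * Complex.exp (-(N * sg x.2 x.1)) := by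
      rw [← Complex.exp_add]
      congr 1
      ring
    rw [e1]
    ring
  have hd2 : ∀ i, ∀ p ∈ V, DifferentiableOn ℂ
      (fun φ => cv (fun i (x : ℂ × ℂ) => A i x.2) (fun i x => Ak i (x.2, x.1)) i (p, φ)) V0 := by
    intro i p hp
    simp only [cv]
    exact DifferentiableOn.fun_sum fun i _ => ((hA.an i).mono (V0_sub.trans V1_sub)).mul
      ((hAk.d1 _ p (hV hp)).mono (V0_sub.trans V1_sub))
  have hnz : ∀ x ∈ V ×ˢ V0,
      cv (fun i (x : ℂ × ℂ) => A i x.2) (fun i x => Ak i (x.2, x.1)) 0 x ≠ 0 := by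
    intro x hx
    have e1 : cv (fun i (x : ℂ × ℂ) => A i x.2) (fun i x => Ak i (x.2, x.1)) 0 x =
        A 0 x.2 * Ak 0 (x.2, x.1) := by
      simp [cv]
    rw [e1]
    exact mul_ne_zero (hA.nz _ (V1_sub (V0_sub hx.2)))
      (hAk.nz _ ⟨V1_sub (V0_sub hx.2), hV hx.1⟩)
  obtain ⟨B, hB0, hB⟩ := Pool.Agent.N499.AX.outx a 1 1 y₁ τ₁ one_pos le_rfl (by linarith) hτ0 hτy
    V V DD hVc subset_rfl DD_open (fun N p w => X N w * ker N w p)
    (fun N p w => X N w * ker N w p) (fun p w => F w + sg w p) zs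
    (fun N => (N : ℂ) ^ (2 * m) * (-1) ^ (N * m) * ((((Real.sqrt N) ^ 3 : ℝ)) : ℂ))
    (fun N p _ => (hX.an N).mul (ker_diff N p)) (fun N p _ => (hX.an N).mul (ker_diff N p))
    (fun p hp => hFd.add (hsd p (hV hp))) hcont hzc hmw hpt hbd
    (fun ε hε => nn_ev m 3 hε) V0 (cv (fun i (x : ℂ × ℂ) => A i x.2)
      (fun i x => Ak i (x.2, x.1)))
    V0_open (V0_sub.trans V1_sub) (fun p hp => D0_V0 (hC.mem p (hV hp)).1) hux hd2 hnz
  refine ⟨B, hB0, ux_eq hB ?_⟩
  intro N p hp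
  have e0 : F' p = qq a (fun w => F w + sg w p) (zs p) := by
    rw [hC.val p (hV hp)]
    unfold qq
    ring
  rw [stpb_eq, e0]
  have e2 := sq4 N
  have e3 : (N : ℂ) ^ (2 * (m + 1)) = (N : ℂ) ^ (2 * m) * (N : ℂ) ^ 2 := by
    rw [← pow_add]
    congr 1
  have e4 : (-1 : ℂ) ^ (N * (m + 1)) = (-1) ^ (N * m) * (-1) ^ N := by
    rw [← pow_add]
    congr 1
  rw [e3, e4, ← e2]
  ring

/-- gluing of the expansions on the compact subsets of `DD` -/
lemma glue {Y : ℕ → ℂ → ℂ} (hY : ∀ N, DifferentiableOn ℂ (Y N) DD)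
    (h : ∀ V ⊆ DD, IsCompact V → ∃ B : ℕ → ℂ → ℂ, (∀ p ∈ V, B 0 p ≠ 0) ∧ UX Y B V) :
    ∃ A : ℕ → ℂ → ℂ, (∀ V ⊆ DD, IsCompact V → UX Y A V) ∧ (∀ k, DifferentiableOn ℂ (A k) DD) ∧
      ∀ z ∈ DD, A 0 z ≠ 0 := by
  classical
  have h1 : ∀ p : ℂ, ∃ B : ℕ → ℂ → ℂ, p ∈ DD → B 0 p ≠ 0 ∧ UX Y B {p} := by
    intro p
    by_cases hp : p ∈ DD
    · obtain ⟨B, hB, hB'⟩ := h {p} (Set.singleton_subset_iff.2 hp) isCompact_singleton
      exact ⟨B, fun _ => ⟨hB p rfl, hB'⟩⟩
    · exact ⟨fun _ _ => 0, fun hp' => (hp hp').elim⟩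
  choose B hB using h1
  have hux : ∀ V ⊆ DD, IsCompact V → UX Y (fun k p => B p k p) V := by
    intro V hV hVc
    obtain ⟨C, -, hC⟩ := h V hV hVc
    exact ux_coef hC fun k p hp => ux_uniq (hB p (hV hp)).2 hC k p rfl hp
  refine ⟨fun k p => B p k p, hux, fun k z hz => ?_, fun z hz => (hB z hz).1⟩
  obtain ⟨r, hr, hrD⟩ := Metric.isOpen_iff.1 DD_open z hz
  have hb : ball z (r / 2) ⊆ closedBall z (r / 2) := ball_subset_closedBall
  have hcb : closedBall z (r / 2) ⊆ DD := (closedBall_subset_ball (by linarith)).trans hrD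
  have h2 := ux_sub (hux _ hcb (isCompact_closedBall _ _)) hb
  have h3 := Pool.Agent.W303.AX.uxan _ _ _ isOpen_ball
    (Eventually.of_forall fun N => (hY N).mono (hb.trans hcb)) h2 k
  exact (h3.differentiableAt (isOpen_ball.mem_nhds (mem_ball_self (by linarith)))).differentiableWithinAt

/-- **EKX/3** -/
theorem stx : S_STX := by
  intro hP hH hE hK hKF Ak hAk t m a X F F' zs A hX hC hA1 _ hA
  have hY : ∀ N : ℕ, DifferentiableOn ℂ (fun z => (N : ℂ) ^ (2 * (m + 1)) *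
      (-1) ^ (N * (m + 1)) * Complex.exp (-(N * F' z)) * stpb false a X N z) DD := by
    intro N
    obtain ⟨st1, -⟩ := Pool.Agent.W398.HT.t_STPE a X hX.an
    rw [stpb_stp]
    exact ((hA1.Fan.const_mul _).neg.cexp.const_mul _).mul (st1 N).differentiableOn
  obtain ⟨A', h1, h2, h3⟩ := glue hY
    (fun V hV hVc => stx_one hP hH hE hK hKF hAk hX hC hA hV hVc)
  exact ⟨A', h1, h2, h3⟩

end Pool.Agent.N499.EK
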